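import Pool.Agent.Run7.h937.LG.Stm

set_option autoImplicit false

namespace Run7.h623.LG

open Pool.Agent.Run7.h937.LG

theorem mem_v (x y t : ℝ) (p : ℝ × ℝ) :
    p ∈ segment ℝ (x, y) (x, t) ↔ p.1 = x ∧ p.2 ∈ Set.uIcc y t := by
  rw [← Prod.image_mk_segment_right, segment_eq_uIcc]
  constructor
  · rintro ⟨v, hv, rfl⟩
    exact ⟨rfl, hv⟩
  · rintro ⟨h1, h2⟩
    exact ⟨p.2, h2, Prod.ext h1.symm rfl⟩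

theorem mem_h (x y r : ℝ) (p : ℝ × ℝ) :
    p ∈ segment ℝ (x, y) (r, y) ↔ p.2 = y ∧ p.1 ∈ Set.uIcc x r := by
  rw [← Prod.image_mk_segment_left, segment_eq_uIcc]
  constructor
  · rintro ⟨v, hv, rfl⟩
    exact ⟨rfl, hv⟩
  · rintro ⟨h1, h2⟩
    exact ⟨p.1, h2, Prod.ext rfl h1.symm⟩

theorem meet {x y r t x' y' r' t' : ℝ} (hx : x ≠ x') (hy : y ≠ y') :
    (bent x y r t ∩ bent x' y' r' t').Nonempty ↔
      (x ∈ Set.uIcc x' r' ∧ y' ∈ Set.uIcc y t) ∨ (x' ∈ Set.uIcc x r ∧ y ∈ Set.uIcc y' t') := by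
  unfold bent
  constructor
  · rintro ⟨p, h1 | h1, h2 | h2⟩
    · rw [mem_v] at h1 h2
      exact absurd (h1.1.symm.trans h2.1) hx
    · rw [mem_v] at h1
      rw [mem_h] at h2
      exact Or.inl ⟨h1.1 ▸ h2.2, h2.1 ▸ h1.2⟩
    · rw [mem_h] at h1
      rw [mem_v] at h2
      exact Or.inr ⟨h2.1 ▸ h1.2, h1.1 ▸ h2.2⟩
    · rw [mem_h] at h1 h2
      exact absurd (h1.1.symm.trans h2.1) hy
  · rintro (⟨h1, h2⟩ | ⟨h1, h2⟩)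
    · exact ⟨(x, y'), Or.inl ((mem_v x y t _).2 ⟨rfl, h2⟩), Or.inr ((mem_h x' y' r' _).2 ⟨rfl, h1⟩)⟩
    · exact ⟨(x', y), Or.inr ((mem_h x y r _).2 ⟨rfl, h1⟩), Or.inl ((mem_v x' y' t' _).2 ⟨rfl, h2⟩)⟩

theorem key : ∀ a b : Fin 24, a ≠ b → bx a ≠ bx b ∧ bv a ≠ bv b ∧
    (dis a b = false ↔
      ((bx b ≤ bx a ∧ bx a ≤ bh b ∨ bh b ≤ bx a ∧ bx a ≤ bx b) ∧
        (bv a ≤ bv b ∧ bv b ≤ bt a ∨ bt a ≤ bv b ∧ bv b ≤ bv a)) ∨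
      ((bx a ≤ bx b ∧ bx b ≤ bh a ∨ bh a ≤ bx b ∧ bx b ≤ bx a) ∧
        (bv b ≤ bv a ∧ bv a ≤ bt b ∨ bt b ≤ bv a ∧ bv a ≤ bv b))) := by
  decide +kernel

theorem t_B1 : S_B1 := by
  refine ⟨bx, bv, bh, bt, fun a b hab => ?_⟩
  obtain ⟨h1, h2, h3⟩ := key a b hab
  have h1' : ((bx a : ℤ) : ℝ) ≠ ((bx b : ℤ) : ℝ) := fun h => h1 (Int.cast_injective h)
  have h2' : ((bv a : ℤ) : ℝ) ≠ ((bv b : ℤ) : ℝ) := fun h => h2 (Int.cast_injective h)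
  rw [meet h1' h2']
  simp only [Set.mem_uIcc, Int.cast_le]
  rw [← h3]
  exact ⟨fun h => h.2, fun h => ⟨hab, h⟩⟩

end Run7.h623.LG
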